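import Pool.Agent.N230.TP.Nest
import Pool.Agent.N230.TP.Mono

/-!
# The pole relation over `ℚ` and a Boolean algebra of formulas

Call a set `T` of rational numbers sparse if every residue class contains a residue class which meets
`T` in a finite set only (residue classes of rational numbers, see `Cls`). For a set `Q` of primes let
`AlgT Q` be the Boolean algebra of sets of rational numbers generated by

* all sparse sets,
* the sets `{a | V_a(ℚ) ≠ ∅}` for all families `V` of closed subschemes of projective spaces over the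
  line such that every residue class contains a residue class in which the Hasse principle holds for
  all but finitely many fibres,
* the sets which are locally constant off a finite set in the topology of one `ℚ_q`, and the
  conjunctions of a real condition and of `p`-adic conditions for all primes `p ∉ Q`, locally constant
  off one finite set.

(3) The algebra contains, for all `b ∈ ℚ`,

* all thin sets,
* the sets `{a | ∃ w, β(a, b, w)}` with one quantifier, `β` quantifier-free (a Boolean combination of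
  polynomial equations),
* the sets `{a | ∃ w, β(a, b, w)}` with `w = (w₁, …, w_n)`, where `β` is a Boolean combination of
  polynomial equations in `(a, b, w)` and of statements `∃ z, (1, z)ᵀ A(a, b, w) (1, z) = 0`, `A` any
  symmetric matrix of polynomials in `(a, b, w)`, if the witnesses `w_i` are algebraic over `ℚ(a)`;
  for `n = 0` these are the Boolean combinations of quadratic equations of any rank in any number of
  unknowns, the coefficients being arbitrary polynomials in `a` and `b`,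
* for the relations `D` in the Boolean algebra of the starting result `HassePrincipleFamilies`, the
  sets `{a | D(a, b)}` for all but finitely many `b`.

(1) For every single `b ∈ ℚ` the set `{a | R_ℚ(a, b)}` is not the union of a set in `AlgT Q`, `Q` the
set of the primes `1 mod 4`, and of finitely many sets as in the starting results `CubicEquations`,
`QuarticDoubleCovers`, `UnirationalFibres` and `QuadraticFamilies`: `{a | ∃ z, f(a, b, z) = 0}` with `f`
of degree at most three in `(a, z)`; `{a | ∃ w z, g(a, b, w, z) = 0}` with `g` of degree at most two in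
`(a, z)`; values of rational functions on products of blocks.

(2) The general form for all rich sets `Q` of primes. If finitely many sets of the latter kinds are
contained in the set `P` of the `a` such that the pole relation holds for `a` and `b`, and `E` in
`AlgT Q` is contained in `P` up to a sparse set, then every residue class of integers contains a
residue class without element in all these sets, whereas all integers are in `P`.

The proof. By Hilbert's irreducibility theorem in residue classes a thin set is sparse. A set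
of the algebra whose elements have no pole at the primes of `Q` is nowhere dense in the integers: at a
large prime of `Q` where the finitely many polynomials in question have roots, an integer in the set
could be moved to a rational number with a pole. The theorem of Hasse and Minkowski (proved here for
all diagonal forms over `ℚ`) shows that the families of projective quadrics satisfy the Hasse
principle; for affine quadrics one uses that the rational points of an isotropic cone are not contained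
in a hyperplane.
-/

set_option autoImplicit false

namespace Pool.Agent.Results.MP_a59382_lc.AlgebraOfFormulas

open MvPolynomial Pool.Agent.TH766.HP Pool.Agent.TH783.CE Pool.Agent.N230.TP
open Pool.Agent.Results.MP_a59382_lc.CubicEquations (PoleRel)
open Pool.Agent.Results.MP_a59382_lc.QuadraticFamilies (Union)
open Pool.Agent.Results.MP_a59382_lc.UnirationalFibres (Block)

theorem result :
    -- (1) no section of the relation `R_ℚ` is such a union
    (∀ (k h l : ℕ) (n : Fin k → ℕ) (m : Fin h → ℕ)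
      (f : ∀ i, MvPolynomial (Fin 2 ⊕ Fin (n i)) ℚ) (g : ∀ i, MvPolynomial (Fin 3 ⊕ Fin (m i)) ℚ),
      (∀ i, ∀ e ∈ (f i).support, e (Sum.inl 0) + ∑ j, e (Sum.inr j) ≤ 3) →
      (∀ i, ∀ e ∈ (g i).support, e (Sum.inl 0) + ∑ j, e (Sum.inr j) ≤ 2) →
      ∀ (r : Fin l → ℕ) (d : ∀ i, Fin (r i) → ℕ) (S : ∀ i, ℚ → ∀ j, Set (Fin (d i j + 1) → ℚ))
        (p q : ∀ i, ℚ → MvPolynomial ((j : Fin (r i)) × Fin (d i j + 1)) ℚ) (b : ℚ),
      (∀ i j, Block (S i b j)) → ∀ E : Set ℚ, AlgT {p | p % 4 = 1} E →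
      ¬ ∀ a : ℚ, (Union f g S p q a b ∨ a ∈ E) ↔ PoleRel ℚ {p | p % 4 = 1} a b) ∧
    -- (2) the general form, for every rich set of primes
    (∀ (Q : Set ℕ), Rich Q → ∀ (k h l : ℕ) (n : Fin k → ℕ) (m : Fin h → ℕ)
      (f : ∀ i, MvPolynomial (Fin 2 ⊕ Fin (n i)) ℚ) (g : ∀ i, MvPolynomial (Fin 3 ⊕ Fin (m i)) ℚ),
      (∀ i, ∀ e ∈ (f i).support, e (Sum.inl 0) + ∑ j, e (Sum.inr j) ≤ 3) →
      (∀ i, ∀ e ∈ (g i).support, e (Sum.inl 0) + ∑ j, e (Sum.inr j) ≤ 2) →
      ∀ (r : Fin l → ℕ) (d : ∀ i, Fin (r i) → ℕ) (S : ∀ i, ℚ → ∀ j, Set (Fin (d i j + 1) → ℚ))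
        (p q : ∀ i, ℚ → MvPolynomial ((j : Fin (r i)) × Fin (d i j + 1)) ℚ) (b : ℚ),
      (∀ i j, Block (S i b j)) → ∀ E : Set ℚ, AlgT Q E →
      (∀ a : ℚ, Union f g S p q a b → PoleRel ℚ Q a b) →
      Sparse {a | a ∈ E ∧ ¬ PoleRel ℚ Q a b} →
      ∀ a₁ b₁ : ℤ, 0 < b₁ → ∃ a₀ b₀ : ℤ, 0 < b₀ ∧ b₁ ∣ b₀ ∧ b₁ ∣ a₀ - a₁ ∧
        ∀ u : ℤ, b₀ ∣ u - a₀ →
          PoleRel ℚ Q (u : ℚ) b ∧ ¬ (Union f g S p q (u : ℚ) b ∨ (u : ℚ) ∈ E)) ∧
    -- (3) sets of the algebra: thin sets
    (∀ T : Set ℚ, Thin T → Sparse T ∧ ∀ Q : Set ℕ, AlgT Q T) ∧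
    -- formulas with one quantifier
    (∀ (Q : Set ℕ) (b : ℚ) (s : ℕ) (F : Fin s → MvPolynomial (Fin 3) ℚ)
      (B : (Fin s → Prop) → Prop), AlgT Q {a | ∃ w : ℚ, B (fun i => eval ![a, b, w] (F i) = 0)}) ∧
    -- equations and quadratic equations, algebraic witnesses
    (∀ (Q : Set ℕ) (b : ℚ) (n s k : ℕ) (F : Fin s → MvPolynomial (Fin 2 ⊕ Fin n) ℚ)
      (t : Fin k → ℕ)
      (A : ∀ i, Matrix (Fin (t i + 1)) (Fin (t i + 1)) (MvPolynomial (Fin 2 ⊕ Fin n) ℚ))
      (B : (Fin s → Prop) → (Fin k → Prop) → Prop), (∀ i, (A i).IsSymm) →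
      (∀ i : Fin n, ∃ G : Polynomial (Polynomial ℚ), G ≠ 0 ∧ ∀ (a : ℚ) (w : Fin n → ℚ),
        B (fun i => eval (Sum.elim ![a, b] w) (F i) = 0) (fun i => QuadAt (A i) a b w) →
          G.evalEval a (w i) = 0) →
      AlgT Q {a | ∃ w : Fin n → ℚ,
        B (fun i => eval (Sum.elim ![a, b] w) (F i) = 0) (fun i => QuadAt (A i) a b w)}) ∧
    -- the relations of `HassePrincipleFamilies`
    (∀ (Q : Set ℕ) (D : Set (ℚ × ℚ)), Alg2 Q D → {b : ℚ | ¬ AlgT Q {a | (a, b) ∈ D}}.Finite) := by
  have main : ∀ (Q : Set ℕ), Rich Q → ∀ (k h l : ℕ) (n : Fin k → ℕ) (m : Fin h → ℕ)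
      (f : ∀ i, MvPolynomial (Fin 2 ⊕ Fin (n i)) ℚ) (g : ∀ i, MvPolynomial (Fin 3 ⊕ Fin (m i)) ℚ),
      (∀ i, ∀ e ∈ (f i).support, e (Sum.inl 0) + ∑ j, e (Sum.inr j) ≤ 3) →
      (∀ i, ∀ e ∈ (g i).support, e (Sum.inl 0) + ∑ j, e (Sum.inr j) ≤ 2) →
      ∀ (r : Fin l → ℕ) (d : ∀ i, Fin (r i) → ℕ) (S : ∀ i, ℚ → ∀ j, Set (Fin (d i j + 1) → ℚ))
        (p q : ∀ i, ℚ → MvPolynomial ((j : Fin (r i)) × Fin (d i j + 1)) ℚ) (b : ℚ),
      (∀ i j, Block (S i b j)) → ∀ E : Set ℚ, AlgT Q E →
      (∀ a : ℚ, Union f g S p q a b → PoleRel ℚ Q a b) →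
      Sparse {a | a ∈ E ∧ ¬ PoleRel ℚ Q a b} →
      ∀ a₁ b₁ : ℤ, 0 < b₁ → ∃ a₀ b₀ : ℤ, 0 < b₀ ∧ b₁ ∣ b₀ ∧ b₁ ∣ a₀ - a₁ ∧
        ∀ u : ℤ, b₀ ∣ u - a₀ →
          PoleRel ℚ Q (u : ℚ) b ∧ ¬ (Union f g S p q (u : ℚ) b ∨ (u : ℚ) ∈ E) := by
    intro Q hQ k h l n m f g hf hg r d S p q b hS E hE hU hX a₁ b₁ hb₁
    obtain ⟨Q', hQQ, hQ', hb⟩ := rich_sub hQ b
    have hthin := (QuadraticFamilies.result.2.1 ℚ Q' hQ' k h l n m f g hf hg r d S p q b hb hS
      fun a ha => poleRel_mono hQQ (hU a ha)).1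
    have hE' : AlgT Q' (E ∩ {a | a ∈ E ∧ ¬ PoleRel ℚ Q a b}ᶜ) :=
      AlgT.inter _ _ (hE.mono hQQ) (AlgT.compl _ (AlgT.sparse _ hX))
    have hAlg := AlgT.union (AlgT.sparse (Q := Q') _ (thin_sparse hthin)) hE'
    obtain ⟨a₀, b₀, h0, h1, h2, h3⟩ := main_nopole Q' hQ' _ hAlg (by
      rintro x (hx | ⟨hx, hx'⟩)
      · exact noPole_of hb (poleRel_mono hQQ (hU x hx))
      · refine noPole_of hb (poleRel_mono hQQ ?_)
        by_contra hcon
        exact hx' ⟨hx, hcon⟩) a₁ b₁ hb₁
    refine ⟨a₀, b₀, h0, h1, h2, fun u hu => ⟨poleRel_int Q u b, fun hc => h3 u hu ?_⟩⟩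
    rcases hc with hc | hc
    · exact Or.inl hc
    · exact Or.inr ⟨hc, fun hx => hx.2 (poleRel_int Q u b)⟩
  refine ⟨?_, main, fun T hT => ⟨thin_sparse hT, fun Q => AlgT.sparse _ (thin_sparse hT)⟩,
    fun Q b s F B => algT_oneQ Q F B b, fun Q b n s k F t A B hA hG => algT_nest Q F A hA B b hG,
    ?_⟩
  · intro k h l n m f g hf hg r d S p q b hS E hE hiff
    have hempty : {a | a ∈ E ∧ ¬ PoleRel ℚ {p | p % 4 = 1} a b} = ∅ := by
      ext a
      exact ⟨fun ha => (ha.2 ((hiff a).1 (Or.inr ha.1))).elim, fun ha => ha.elim⟩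
    obtain ⟨a₀, b₀, -, -, -, h3⟩ := main {p | p % 4 = 1} four k h l n m f g hf hg r d S p q
      b hS E hE (fun a ha => (hiff a).1 (Or.inl ha))
      (by rw [hempty]; exact Sparse.of_finite Set.finite_empty) 0 1 one_pos
    obtain ⟨h4, h5⟩ := h3 a₀ (by simp)
    exact h5 ((hiff a₀).2 h4)
  · intro Q D hD
    obtain ⟨B, hB, h⟩ := alg_slice Q D hD
    refine hB.subset fun b hb => ?_
    by_contra hcon
    exact hb (algT_of_alg (h b hcon))

end Pool.Agent.Results.MP_a59382_lc.AlgebraOfFormulas
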