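import Mathlib
import Pool.Agent.N455.PR.Main
import Pool.Agent.N666.TM.Exact

/-!
# Existential formulas which imply the pole relation fail at almost all integers

Let `K` be a number field and let `Q` be a rich set of rational primes, for example the primes
`p = 1 mod 4`. The relation `R_K(a, b)` of the problem holds for all rational integers `a` and all
`b ∈ K`. The starting results of this problem show for several kinds of existential formulas that they
do not define `R_K`: if such a formula implies the pole relation for some `b` without pole above `Q`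
then the set of the `a` for which it holds is thin, and it misses infinitely many integers. Here it is
shown that it misses almost all integers, and almost all terms of every sequence of integers which is
equidistributed modulo all integers, with one exceptional set for all number fields, all sets of primes,
all formulas and all `b`.

**Theorem.** Let `v_0(n), v_1(n), …` be sequences of integers each of which is equidistributed modulo
all integers, for `n` in finite sets `S_N` of integers in `(N, 2N]`, `N → ∞` (for example the integer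
parts of generalised polynomials, for the integers or for the primes `n`). There is ONE set `E` of
relative density zero such that

(1) for all number fields `K`, all thin subsets `D` of `K` and all `j` there are only finitely many `n`
outside of `E` such that `v_j(n)` is in `D`;

(2) for all number fields `K`, all rich sets `Q` of primes, all `b ∈ K` and all admissible formulas `Φ`:
if `Φ(a, b)` implies the pole relation for all `a ∈ K` then `Φ(v_j(n), b)` fails for all but finitely
many `n` outside of `E` (although the pole relation holds for all `v_j(n)` and `b`); for `K = ℚ` the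
formulas may also be disjunctions with quadratic equations of rank at least five as in the starting
result `RankFive`.

The formulas are finite disjunctions of the formulas of the starting results `CubicEquations`,
`QuadraticFamilies`, `QuarticDoubleCovers`, `UnirationalFibres`, and of formulas
`∃ w_1 … w_c, β(a, b, w)`, where `β` is an arbitrary quantifier-free formula in the language of rings
with parameters in `K` (a Boolean combination of polynomial equations) and `c ≤ 1`, or `c` is arbitrary
and the witnesses `w_i` are algebraic over the field `K(a)`: they satisfy equations `G_i(a, w_i) = 0`.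
And `b` may have poles above `Q`.

Proof. The ring of the elements without pole above `Q` is flat: a rational function in one variable
with all its values in the ring is constant. For a formula with algebraic witnesses the rational
solutions are polynomials in `a`, up to a bounded denominator, or they come from roots of polynomials
without root in `K(a)`. On a rational curve a quantifier-free formula holds at finitely many or at all
but finitely many points; the second case contradicts flatness. A thin set of a number field induces a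
thin set of integers in `ℚ` (helper716), and Hilbert's irreducibility theorem along equidistributed
sequences (`Pool.Agent.N455.HT`) shows that it contains almost no term of the sequences. There are
countably many polynomials over `ℚ`, and a diagonal argument gives one exceptional set.
-/

set_option autoImplicit false

namespace Pool.Agent.Results.MP_a59382_lc.AlmostAllIntegers

open MvPolynomial Filter Topology
open Pool.Agent.TH766.HP Pool.Agent.TH783.CE
open Pool.Agent.Results.MP_a59382_lc.CubicEquations (PoleRel)
open Pool.Agent.Results.MP_a59382_lc.QuadraticFamilies (Union)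
open Pool.Agent.Results.MP_a59382_lc.UnirationalFibres (Block)
open Pool.Agent.R565.QR (spec Solvable)

/-- The terms `v n`, `n ∈ S N`, `N → ∞`, are equidistributed modulo all integers. -/
def Equidistributed (S : ℕ → Finset ℕ) (v : ℕ → ℤ) : Prop :=
  ∀ q : ℕ, 1 ≤ q → ∀ r : ℤ,
    Tendsto (fun N : ℕ => ({n : ℕ | n ∈ S N ∧ v n ≡ r [ZMOD q]}.ncard : ℝ) / (S N).card) atTop
      (𝓝 (1 / (q : ℝ)))

/-- `E` has density zero relative to the sets `S N`. -/
def NullIn (S : ℕ → Finset ℕ) (E : Set ℕ) : Prop :=
  ∀ ε : ℝ, 0 < ε → ∃ N₀ : ℕ, ∀ N : ℕ, N₀ ≤ N →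
    ({n : ℕ | n ∈ S N ∧ n ∈ E}.ncard : ℝ) ≤ ε * (S N).card

/-- `c` is the largest exponent of the generalised polynomial `∑ a_x n ^ x`; it is positive and not an
integer and has a positive coefficient. -/
def Admissible (F : Finset ℝ) (a : ℝ → ℝ) (c : ℝ) : Prop :=
  c ∈ F ∧ (∀ x ∈ F, x ≤ c) ∧ 0 < c ∧ (∀ m : ℕ, c ≠ m) ∧ 0 < a c

/-- The integer part of the value at `n` of the `j`-th generalised polynomial. -/
noncomputable def floors (F : ℕ → Finset ℝ) (a : ℕ → ℝ → ℝ) (j n : ℕ) : ℤ :=
  ⌊∑ x ∈ F j, a j x * (n : ℝ) ^ x⌋

/-- The data of a disjunction of existential formulas in `a` and `b`: `k` equations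
`∃ z, f(a, b, z) = 0`, `h` equations `∃ w z, g(a, b, w, z) = 0`, `l` formulas which say that `a` is a
value of `p / q` on a product of blocks `S` depending on `b`, and `u` formulas
`∃ w, B(F_1(a, b, w) = 0, …, F_s(a, b, w) = 0)` with a Boolean function `B`. -/
structure Formula (K : Type) [Field K] where
  /-- the number of the formulas of the first kind -/
  k : ℕ
  /-- the numbers of their quantifiers -/
  n : Fin k → ℕ
  /-- their polynomials -/
  f : ∀ i, MvPolynomial (Fin 2 ⊕ Fin (n i)) K
  /-- the number of the formulas of the second kind -/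
  h : ℕ
  /-- the numbers of their quantifiers `z` -/
  m : Fin h → ℕ
  /-- their polynomials -/
  g : ∀ i, MvPolynomial (Fin 3 ⊕ Fin (m i)) K
  /-- the number of the formulas of the third kind -/
  l : ℕ
  /-- the numbers of the blocks -/
  r : Fin l → ℕ
  /-- the dimensions of the blocks -/
  d : ∀ i, Fin (r i) → ℕ
  /-- the blocks -/
  S : ∀ i, K → ∀ j, Set (Fin (d i j + 1) → K)
  /-- the numerators -/
  p : ∀ i, K → MvPolynomial ((j : Fin (r i)) × Fin (d i j + 1)) K
  /-- the denominators -/
  q : ∀ i, K → MvPolynomial ((j : Fin (r i)) × Fin (d i j + 1)) K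
  /-- the number of the formulas of the fourth kind -/
  u : ℕ
  /-- the numbers of their quantifiers -/
  c : Fin u → ℕ
  /-- the numbers of their equations -/
  s : Fin u → ℕ
  /-- their polynomials -/
  F : ∀ i, Fin (s i) → MvPolynomial (Fin 2 ⊕ Fin (c i)) K
  /-- their Boolean functions -/
  B : ∀ i, (Fin (s i) → Prop) → Prop

section

variable {K : Type} [Field K]

/-- The quantifier-free part of the `i`-th formula of the fourth kind. -/
def Formula.Matrix (Φ : Formula K) (i : Fin Φ.u) (a b : K) (w : Fin (Φ.c i) → K) : Prop :=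
  Φ.B i fun j => eval (Sum.elim ![a, b] w) (Φ.F i j) = 0

/-- The formula holds for `a` and `b`. -/
def Formula.Holds (Φ : Formula K) (a b : K) : Prop :=
  Union Φ.f Φ.g Φ.S Φ.p Φ.q a b ∨ ∃ i, ∃ w : Fin (Φ.c i) → K, Φ.Matrix i a b w

/-- The polynomials `f` have degree at most three in `(a, z)` and the polynomials `g` have degree at
most two in `(a, z)`. -/
def Formula.SmallDegree (Φ : Formula K) : Prop :=
  (∀ i, ∀ e ∈ (Φ.f i).support, e (Sum.inl 0) + ∑ j, e (Sum.inr j) ≤ 3) ∧
    ∀ i, ∀ e ∈ (Φ.g i).support, e (Sum.inl 0) + ∑ j, e (Sum.inr j) ≤ 2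

/-- For this `b` every formula of the fourth kind has at most one quantifier, or all its witnesses `w`
are algebraic over the field `K(a)`: there are polynomials `G ≠ 0` in two variables with
`G(a, w_i) = 0`. -/
def Formula.AlgebraicWitnesses (Φ : Formula K) (b : K) : Prop :=
  ∀ i, Φ.c i ≤ 1 ∨ ∀ j : Fin (Φ.c i), ∃ G : Polynomial (Polynomial K), G ≠ 0 ∧
    ∀ (a : K) (w : Fin (Φ.c i) → K), Φ.Matrix i a b w → G.evalEval a (w j) = 0

/-- The degrees are small, the sets `S` are blocks for this `b` and the witnesses of the formulas of the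
fourth kind are algebraic. -/
def Formula.AdmissibleAt (Φ : Formula K) (b : K) : Prop :=
  Φ.SmallDegree ∧ (∀ i j, Block (Φ.S i b j)) ∧ Φ.AlgebraicWitnesses b

end

/-- For this `b` the formula implies the pole relation. -/
def Formula.SoundAt {K : Type} [Field K] [NumberField K] (Φ : Formula K) (Q : Set ℕ) (b : K) : Prop :=
  ∀ a : K, Φ.Holds a b → PoleRel K Q a b

/-- Quadratic equations `∃ z, (1, z)ᵀ A(a, b) (1, z) = 0` over `ℚ`, `A` symmetric, with a matrix of rank
at least five for this `b` and some `a`. -/
structure Forms where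
  /-- the number of the equations -/
  s : ℕ
  /-- the numbers of their variables `z` -/
  t : Fin s → ℕ
  /-- the matrices -/
  A : ∀ i, Matrix (Fin (t i + 1)) (Fin (t i + 1)) (MvPolynomial (Fin 2 ⊕ Fin 0) ℚ)

/-- One of the equations is solvable. -/
def Forms.Holds (Ψ : Forms) (a b : ℚ) : Prop := ∃ i, Solvable (Ψ.A i) a b

/-- The matrices are symmetric and have rank at least five for this `b` and some `a`. -/
def Forms.RankFiveAt (Ψ : Forms) (b : ℚ) : Prop :=
  ∀ i, (Ψ.A i).IsSymm ∧ ∃ a, 5 ≤ (spec (Ψ.A i) a b Fin.elim0).rank

/-- **Formulas which imply the pole relation fail at almost all terms of all sequences of integers which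
are equidistributed modulo all integers, with one exceptional set.** -/
theorem result :
    (∀ (S₁ S₂ : ℕ → Finset ℕ) (v : ℕ → ℕ → ℤ), (∀ N, S₁ N ⊆ Finset.Ioc N (2 * N)) →
      (∀ N, S₂ N ⊆ Finset.Ioc N (2 * N)) → (∀ j, Equidistributed S₁ (v j)) →
      (∀ j, Equidistributed S₂ (v j)) →
      ∃ E : Set ℕ, NullIn S₁ E ∧ NullIn S₂ E ∧
        -- thin sets
        (∀ (j : ℕ) (K : Type) [Field K] [NumberField K] (D : Set K), Thin D →
          {n | n ∉ E ∧ (v j n : K) ∈ D}.Finite) ∧
        -- formulas over number fields
        (∀ (j : ℕ) (K : Type) [Field K] [NumberField K] (Q : Set ℕ), Rich Q →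
          ∀ (Φ : Formula K) (b : K), Φ.AdmissibleAt b → Φ.SoundAt Q b →
            {n | n ∉ E ∧ Φ.Holds (v j n : K) b}.Finite) ∧
        -- formulas over the rational numbers
        (∀ (j : ℕ) (Q : Set ℕ), Rich Q → ∀ (Φ : Formula ℚ) (Ψ : Forms) (b : ℚ),
          Φ.AdmissibleAt b → Ψ.RankFiveAt b →
          (∀ a : ℚ, (Φ.Holds a b ∨ Ψ.Holds a b) → PoleRel ℚ Q a b) →
            {n | n ∉ E ∧ (Φ.Holds (v j n : ℚ) b ∨ Ψ.Holds (v j n : ℚ) b)}.Finite)) ∧
    -- the pole relation holds at all integers
    (∀ (K : Type) [Field K] [NumberField K] (Q : Set ℕ) (m : ℤ) (b : K), PoleRel K Q (m : K) b) ∧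
    -- the primes `1` modulo `4`
    Rich {p | p % 4 = 1} ∧
    -- generalised polynomials
    (∀ (F : ℕ → Finset ℝ) (a : ℕ → ℝ → ℝ) (c : ℕ → ℝ), (∀ j, Admissible (F j) (a j) (c j)) →
      ∀ j, Equidistributed (fun N => Finset.Ioc N (2 * N)) (floors F a j) ∧
        Equidistributed (fun N => (Finset.Ioc N (2 * N)).filter Nat.Prime) (floors F a j)) := by
  have conv : ∀ (S : ℕ → Finset ℕ) (v : ℕ → ℤ), Equidistributed S v ↔
      Pool.Agent.N455.HT.Equi S (fun n (_ : Unit) => v n) := by
    intro S v
    have hs : ∀ (N q : ℕ) (r : Unit → ℤ), {n : ℕ | n ∈ S N ∧ ∀ i : Unit, v n ≡ r i [ZMOD q]} =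
        {n : ℕ | n ∈ S N ∧ v n ≡ r () [ZMOD q]} := by
      intro N q r
      ext n
      exact ⟨fun h => ⟨h.1, h.2 ()⟩, fun h => ⟨h.1, fun _ => h.2⟩⟩
    unfold Equidistributed Pool.Agent.N455.HT.Equi
    simp only [Fintype.card_unit, pow_one, hs]
    exact ⟨fun h q hq r => h q hq (r ()), fun h q hq r => h q hq fun _ => r⟩
  refine ⟨?_, fun K _ _ Q m b => Pool.Agent.N455.PR.poleRel_int Q m b, four, ?_⟩
  · intro S₁ S₂ v hS₁ hS₂ h₁ h₂
    obtain ⟨E, hE1, hE2, hE⟩ := Pool.Agent.N455.PR.thin_all hS₁ hS₂ (v := v)
      (fun j => Pool.Agent.N455.HT.WS.of_equi ((conv _ _).1 (h₁ j)))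
      (fun j => Pool.Agent.N455.HT.WS.of_equi ((conv _ _).1 (h₂ j)))
    have key : ∀ (K : Type) [Field K] [NumberField K] (Q : Set ℕ), Rich Q →
        ∀ (Φ : Formula K) (b : K), Φ.AdmissibleAt b → Φ.SoundAt Q b → Thin {a | Φ.Holds a b} := by
      intro K _ _ Q hQ Φ b hΦ hs
      exact Pool.Agent.N455.PR.thin_main hQ hΦ.1.1 hΦ.1.2 b hΦ.2.1 hΦ.2.2 hs
    refine ⟨E, hE1, hE2, hE, ?_, ?_⟩
    · intro j K _ _ Q hQ Φ b hΦ hs
      exact hE j K _ (key K Q hQ Φ b hΦ hs)
    · intro j Q hQ Φ Ψ b hΦ hΨ hs
      have h1 := key ℚ Q hQ Φ b hΦ fun a ha => hs a (Or.inl ha)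
      have h2 : {a | Ψ.Holds a b}.Finite := by
        have : {a | Ψ.Holds a b} = ⋃ i, {a | Solvable (Ψ.A i) a b} := by
          ext a
          simp [Forms.Holds]
        rw [this]
        exact Set.finite_iUnion fun i => Pool.Agent.N455.PR.fin_rank5 hQ (hΨ i).1 b (hΨ i).2
          fun a ha => hs a (Or.inr ⟨i, ha⟩)
      exact hE j ℚ _ (h1.union (Thin.of_finite h2))
  · intro F a c h j
    obtain ⟨h1, h2⟩ := Pool.Agent.N666.TM.fl_well (ι := Unit) (F := fun _ => F j)
      (a := fun _ => a j) (c := fun _ => c j) (fun _ => h j) (fun _ _ _ => rfl)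
    exact ⟨(conv _ _).2 (Pool.Agent.N455.HT.Equi.of_ws (Pool.Agent.N455.HT.WS.of_power h1)),
      (conv _ _).2 (Pool.Agent.N455.HT.Equi.of_ws (Pool.Agent.N455.HT.WS.of_power h2))⟩

end Pool.Agent.Results.MP_a59382_lc.AlmostAllIntegers
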